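import Pool.Agent.Q87.Leonard.Krawtchouk

/-!
# A Leonard triple extending the Krawtchouk pair whose commutators leave the span
-/

namespace Pool.Agent.Results.MP_f4f39d_al.CommutatorsOutsideSpan

open Pool.Agent.Q87.Krawtchouk Polynomial

/-- For every `d ≥ 1` the matrix `3 A + 4 A*` makes `(A, A*, 3 A + 4 A*)` a Leonard triple, and
none of the three commutators lies in the span of `I, A, A*, A^ε`. -/
theorem result (K : Type*) [Field K] [CharZero K] (d : ℕ) (hd : 1 ≤ d) :
    LeonardTriple (krawA K d) (krawB K d) (krawZ K d) ∧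
    commutatorMat (krawA K d) (krawB K d) ∉ spanOf (krawA K d) (krawB K d) (krawZ K d) ∧
    commutatorMat (krawB K d) (krawZ K d) ∉ spanOf (krawA K d) (krawB K d) (krawZ K d) ∧
    commutatorMat (krawZ K d) (krawA K d) ∉ spanOf (krawA K d) (krawB K d) (krawZ K d) := by
  classical
  obtain ⟨A, hA⟩ : ∃ A, A = krawA K d := ⟨_, rfl⟩
  obtain ⟨B, hB⟩ : ∃ B, B = krawB K d := ⟨_, rfl⟩
  obtain ⟨Z, hZ⟩ : ∃ Z, Z = krawZ K d := ⟨_, rfl⟩
  rw [← hA, ← hB, ← hZ]
  simp only [commutatorMat, spanOf]
  have hC : (C (1 : K) : K[X]) = 1 := C_1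
  have hopA : ∀ a b : K, opA K 1 (C a + C b * X) = C b + C a * X := by
    intro a b
    simp only [opA, derivative_add, derivative_mul, derivative_C, derivative_X, Nat.cast_one, C_1]
    ring
  have hopB : ∀ a b : K, opB K 1 (C a + C b * X) = C a + C (-b) * X := by
    intro a b
    simp only [opB, derivative_add, derivative_mul, derivative_C, derivative_X, Nat.cast_one, C_1,
      C_neg]
    ring
  have hlin : ∀ a b : K, (C a + C b * X : K[X]).natDegree ≤ 1 := by
    intro a b
    rw [add_comm]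
    exact natDegree_linear_le
  have hne : ∀ a b : K, a ≠ 0 ∨ b ≠ 0 → (C a + C b * X : K[X]) ≠ 0 := by
    intro a b hab h
    have h0 := congrArg (fun p => coeff p 0) h
    have h1 := congrArg (fun p => coeff p 1) h
    simp at h0 h1
    rcases hab with hab | hab
    · exact hab h0
    · exact hab h1
  have h10 : (1 : K) ≠ 0 := one_ne_zero
  have h3 : (3 : K) ≠ 0 := by norm_num
  have h4 : (4 : K) ≠ 0 := by norm_num
  have h5 : (5 : K) ≠ 0 := by norm_num
  -- basis diagonalising A*
  obtain ⟨b1, hb1⟩ := exists_basis (K := K) d (u := C 1 + C 0 * X) (v := C 0 + C 1 * X)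
    (hlin _ _) (hlin _ _) (hne _ _ (Or.inl h10)) (hne _ _ (Or.inr h10))
    (α := 0) (β := 1) (γ := 1) (δ := 0) (α' := 1) (β' := 0) (γ' := 0) (δ' := -1)
    (by rw [hopA]; simp) (by rw [hopA]; simp) (by rw [hopB]; simp) (by rw [hopB]; simp)
    0 1 (lam := 1) h10 (by ring) (by ring) (by ring) (by ring)
  -- basis diagonalising A
  obtain ⟨b2, hb2⟩ := exists_basis (K := K) d (u := C 1 + C 1 * X) (v := C 1 + C (-1) * X)
    (hlin _ _) (hlin _ _) (hne _ _ (Or.inl h10)) (hne _ _ (Or.inl h10))
    (α := 1) (β := 0) (γ := 0) (δ := -1) (α' := 0) (β' := 1) (γ' := 1) (δ' := 0)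
    (by rw [hopA]; simp) (by rw [hopA]; simp; ring) (by rw [hopB]; simp)
    (by rw [hopB]; simp)
    1 0 (lam := 1) h10 (by ring) (by ring) (by ring) (by ring)
  -- basis diagonalising A^ε
  obtain ⟨b3, hb3⟩ := exists_basis (K := K) d (u := C 3 + C 1 * X) (v := C (-1) + C 3 * X)
    (hlin _ _) (hlin _ _) (hne _ _ (Or.inl h3)) (hne _ _ (Or.inr h3))
    (α := 3 / 5) (β := 4 / 5) (γ := 4 / 5) (δ := -(3 / 5))
    (α' := 4 / 5) (β' := -(3 / 5)) (γ' := -(3 / 5)) (δ' := -(4 / 5))
    (by
      rw [hopA, mul_add, mul_add, ← mul_assoc, ← mul_assoc, ← C_mul, ← C_mul, ← C_mul, ← C_mul,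
        add_add_add_comm, ← C_add, ← add_mul, ← C_add]
      congr 2
      · congr 1; field_simp; norm_num
      · field_simp; norm_num)
    (by
      rw [hopA, mul_add, mul_add, ← mul_assoc, ← mul_assoc, ← C_mul, ← C_mul, ← C_mul, ← C_mul,
        add_add_add_comm, ← C_add, ← add_mul, ← C_add]
      congr 2
      · congr 1; field_simp; norm_num
      · field_simp; norm_num)
    (by
      rw [hopB, mul_add, mul_add, ← mul_assoc, ← mul_assoc, ← C_mul, ← C_mul, ← C_mul, ← C_mul,
        add_add_add_comm, ← C_add, ← add_mul, ← C_add]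
      congr 2
      · congr 1; field_simp; norm_num
      · field_simp; norm_num)
    (by
      rw [hopB, mul_add, mul_add, ← mul_assoc, ← mul_assoc, ← C_mul, ← C_mul, ← C_mul, ← C_mul,
        add_add_add_comm, ← C_add, ← add_mul, ← C_add]
      congr 2
      · congr 1; field_simp; norm_num
      · field_simp; norm_num)
    3 4 (lam := 5) h5 (by field_simp; norm_num) (by ring) (by ring) (by field_simp; norm_num)
  have hZ' : Z = (3 : K) • krawA K d + (4 : K) • krawB K d := hZ
  have hA' : A = (1 : K) • krawA K d + (0 : K) • krawB K d := by rw [hA]; simp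
  have hB' : B = (0 : K) • krawA K d + (1 : K) • krawB K d := by rw [hB]; simp
  have diag : ∀ {α β γ δ : K}, β = 0 → γ = 0 → IsDiagonal (triM d α β γ δ) := by
    rintro α β γ δ rfl rfl; exact triM_diag d _ _
  refine ⟨⟨⟨b2, ?_, ?_, ?_⟩, ⟨b1, ?_, ?_, ?_⟩, ⟨b3, ?_, ?_, ?_⟩⟩, ?_⟩
  · rw [hA', hb2]; exact diag (by ring) (by ring)
  · rw [hB', hb2]; exact triM_irred d (by norm_num) (by norm_num)
  · rw [hZ', hb2]; exact triM_irred d (by norm_num) (by norm_num)
  · rw [hB', hb1]; exact diag (by ring) (by ring)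
  · rw [hA', hb1]; exact triM_irred d (by norm_num) (by norm_num)
  · rw [hZ', hb1]; exact triM_irred d (by norm_num) (by norm_num)
  · rw [hZ', hb3]; exact diag (by ring) (by ring)
  · rw [hA', hb3]; exact triM_irred d (by norm_num) (by norm_num)
  · rw [hB', hb3]; exact triM_irred d (by norm_num) (by norm_num)
  -- the commutators
  have hd0 : (d : K) ≠ 0 := by
    have : d ≠ 0 := by omega
    exact_mod_cast this
  let i0 : Fin (d + 1) := ⟨0, by omega⟩
  let i1 : Fin (d + 1) := ⟨1, by omega⟩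
  have h01 : i0 ≠ i1 := by simp [i0, i1]
  let φ : Matrix (Fin (d + 1)) (Fin (d + 1)) K →ₗ[K] K :=
    { toFun := fun M => M i0 i1 - (d : K) * M i1 i0
      map_add' := by intro M N; simp only [Matrix.add_apply]; ring
      map_smul' := by intro k M; simp only [Matrix.smul_apply, smul_eq_mul, RingHom.id_apply]; ring }
  have hφ : ∀ M, φ M = M i0 i1 - (d : K) * M i1 i0 := fun _ => rfl
  have eA1 : krawA K d i0 i1 = d := by simp [krawA, i0, i1]
  have eA2 : krawA K d i1 i0 = 1 := by simp [krawA, i0, i1]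
  have eB1 : krawB K d i0 i1 = 0 := by rw [krawB, Matrix.diagonal_apply_ne _ h01]
  have eB2 : krawB K d i1 i0 = 0 := by rw [krawB, Matrix.diagonal_apply_ne _ h01.symm]
  have hker : Submodule.span K {1, A, B, Z} ≤ LinearMap.ker φ := by
    rw [Submodule.span_le]
    intro M hM
    simp only [Set.mem_insert_iff, Set.mem_singleton_iff] at hM
    change φ M = 0
    rw [hφ]
    rcases hM with rfl | rfl | rfl | rfl
    · rw [Matrix.one_apply_ne h01, Matrix.one_apply_ne h01.symm]; ring
    · rw [hA, eA1, eA2]; ring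
    · rw [hB, eB1, eB2]; ring
    · rw [hZ']
      simp only [Matrix.add_apply, Matrix.smul_apply, smul_eq_mul]
      rw [eA1, eA2, eB1, eB2]; ring
  have hcomm : φ (A * B - B * A) = -4 * d := by
    rw [hφ, hA, hB]
    simp only [Matrix.sub_apply, krawB, Matrix.mul_diagonal, Matrix.diagonal_mul]
    rw [eA1, eA2]
    simp only [i0, i1]
    push_cast
    ring
  have hcne : (-4 * d : K) ≠ 0 := mul_ne_zero (by norm_num) hd0
  have hmem : ∀ M, φ M ≠ 0 → M ∉ Submodule.span K {1, A, B, Z} := fun M hM h => hM (hker h)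
  refine ⟨hmem _ (by rw [hcomm]; exact hcne), hmem _ ?_, hmem _ ?_⟩
  · have : B * Z - Z * B = (-3 : K) • (A * B - B * A) := by
      rw [hZ', hA, hB]
      simp only [mul_add, add_mul, Matrix.mul_smul, Matrix.smul_mul]
      module
    rw [this, map_smul, hcomm, smul_eq_mul]
    exact mul_ne_zero (by norm_num) hcne
  · have : Z * A - A * Z = (-4 : K) • (A * B - B * A) := by
      rw [hZ', hA, hB]
      simp only [mul_add, add_mul, Matrix.mul_smul, Matrix.smul_mul]
      module
    rw [this, map_smul, hcomm, smul_eq_mul]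
    exact mul_ne_zero (by norm_num) hcne

end Pool.Agent.Results.MP_f4f39d_al.CommutatorsOutsideSpan
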